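import Mathlib
import Pool.Agent.Helper58.SIM.Main

set_option autoImplicit false

namespace Pool.Agent.Results.MP_4d9215_an.ThinScales

open MeasureTheory Filter Topology

/-- Let `e n → p` in `ℝ^d` with at most geometric decay (for example `2^(-n)`), and let `𝒯 i`, `i ∈ ℕ`, be
compact sets of invertible linear maps of Hausdorff dimension zero. For every `η > 0` there is a compact
subset `K` of the unit cube, of measure at least `1 - η`, that contains no `t + T {e n}` with `t ∈ ℝ^d`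
and `T` in one of the `𝒯 i`. -/
theorem result (d : ℕ) (e : ℕ → Fin d → ℝ) (p : Fin d → ℝ) (hne : ∀ n, e n ≠ p)
    (hlim : Tendsto e atTop (𝓝 p)) (c : ℝ) (hc : 0 < c)
    (hgeo : ∀ n, c * ‖e n - p‖ ≤ ‖e (n + 1) - p‖)
    (𝒯 : ℕ → Set ((Fin d → ℝ) →L[ℝ] (Fin d → ℝ))) (hcomp : ∀ i, IsCompact (𝒯 i))
    (hinj : ∀ i, ∀ T ∈ 𝒯 i, Function.Injective T) (hdim : ∀ i, dimH (𝒯 i) = 0)
    (η : ℝ) (hη : 0 < η) :
    ∃ K : Set (Fin d → ℝ), IsCompact K ∧ K ⊆ Set.Icc 0 1 ∧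
      volume (Set.Icc 0 1 \ K) ≤ ENNReal.ofReal η ∧
      ∀ i, ∀ T ∈ 𝒯 i, ∀ t : Fin d → ℝ, ¬ ∀ n, t + T (e n) ∈ K :=
  SIM.main d e p hne hlim c hc hgeo 𝒯 hcomp hinj hdim η hη

end Pool.Agent.Results.MP_4d9215_an.ThinScales
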